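import Pool.Agent.MWN.StmtsH

/-!
# Necessity clauses, base (h), arbitrary period `n`: definitions

The twin of `MWN/DefsH.lean` for `x² ≈ x^(n+2)`.  The languages `LG`, `LC`, the conditions `Cd`, the tests
`penB`, `cloB` and the identities `C1 .. C5`, `S8`, `Sh3` of MWN do not depend on the period and are used
as they are.
-/

namespace Pool.Agent.MWNP

open Pool.Agent.Helper14_MV Pool.Agent.Helper2_MV Pool.Agent.MVO Pool.Agent.MWL Pool.Agent.MWS
  Pool.Agent.MWF Pool.Agent.MWN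

/-- the same shape and the same residues in the blocks with at least two letters -/
def Shn (n k : ℕ) (a b : ℕ → ℕ) : Prop :=
  ∀ j ≤ k, a j = b j ∨ (2 ≤ a j ∧ 2 ≤ b j ∧ a j ≡ b j [MOD n])

/-- two letter words with the same shapes and residues are related if the states of the only common
block agree -/
def HstP (n : ℕ) (β : FIC) : Prop :=
  ∀ (k : ℕ) (U V : ℕ → List ℕ), OkB k U → OkB k V → Two01 k U → Two01 k V →
    Shn n k (ty U 0) (ty V 0) → Shn n k (ty U 1) (ty V 1) →
      (∀ i ≤ k, (∀ j ≤ k, j ≠ i → 0 ∉ U j ∨ 1 ∉ U j) →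
        (Fst false (U i) ↔ Fst false (V i)) ∧ (Fst true (U i) ↔ Fst true (V i))) →
        RR β (asm k U) (asm k V)

/-- base (h), two letter words, period `n` -/
structure HBP (n : ℕ) (β : FIC) : Prop where
  pos : 1 ≤ n
  ap : RR β [0, 0] (List.replicate (n + 2) 0)
  rr : RR β [0, 0, 2, 0] ([0, 0, 2] ++ List.replicate (n + 1) 0)
  hst : HstP n β

/-- the bit `b` of the one letter lattice holds -/
abbrev Op (n : ℕ) (β : FIC) (b : Bit) : Prop := Has n (FC.ofFIC β) b

/-- system h4, period `n` -/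
structure Sp4 (n : ℕ) (β : FIC) : Prop where
  s : S8 β
  j : RR β [0, 2, 0, 3, 0] ([0, 2, 0, 3] ++ List.replicate (n + 1) 0)
  c : RR β [0, 1, 2, 1, 1, 3, 0, 4, 1, 1] [1, 0, 2, 1, 1, 3, 0, 4, 1, 1]

/-- system h5, period `n` -/
structure Sp5 (n : ℕ) (β : FIC) : Prop where
  s : S8 β
  j : RR β [0, 2, 0, 3, 0] ([0, 2] ++ (List.replicate (n + 1) 0 ++ 3 :: List.replicate (n + 1) 0))

/-- system h2, period `n` -/
structure Sp2 (n : ℕ) (β : FIC) : Prop where
  h : RR β [0, 0, 1, 1] [1, 1, 0, 0]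
  j : RR β [0, 2, 0, 3, 0] (List.replicate (n + 1) 0 ++ 2 :: (List.replicate (n + 1) 0 ++
    3 :: List.replicate (n + 1) 0))

end Pool.Agent.MWNP
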