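import Pool.Agent.MWNP.Defs

/-!
# Block MWNP: the necessity clauses of base (h) for arbitrary period `n` (rows)

Every row is the twin of a PROVED row of `MWN/StmtsH.lean` (name in brackets; the proofs are in
`Pool/Agent/Helper*_MWN/`).  File `Pool/Agent/HelperNN_MWNP/XXX.lean`, import
`Pool.Agent.MWNP.Stmts`, namespace `Pool.Agent.MWNP.HNN`, theorem
`xxx (hypotheses = rows in uses, in this order) : XxxStmt`.  The docstrings describe only the CHANGES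
against the row in brackets.  What changes in general: `HB β` becomes `HBP n β`, `Oh β b` becomes
`Op n β b`, `Has 1`, `Ab 1` become `Has n`, `Ab n`; `hst` needs equal numbers of occurrences up to
multiples of `n` (`Shn`); `x³ ≈ x²` is replaced by `x^p ≈ x^q` for `p, q ≥ 2`, `p ≡ q [MOD n]` (from `ap`), so
before the exponents of a letter are reduced to `2` one inserts `x^(n-1)` (exponent `3`),
`x^(2n-2)` (exponent `4`), `x^(4n-4)` (exponent `6`) at the place which is named.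
-/

namespace Pool.Agent.MWNP

open Pool.Agent.Helper14_MV Pool.Agent.Helper2_MV Pool.Agent.MVO Pool.Agent.MWL Pool.Agent.MWS
  Pool.Agent.MWF Pool.Agent.MWN

/-- **PHB** (uses MWL.NDF) [NHB].
PROOF.  From `Iso3 β`: `RR β [0] (replicate j 0)` gives `j = 1` (`[0,1,0] ≈ 0^j 1 0^j`), `RR β [] (replicate j 0)`
gives `j = 0` (`iso_nil`); so for `RR β u v` the counts `0` and `1` of a letter are preserved in both
directions (filter, rename), which is `CapP β`.  `NC2 β`: append `[0]` to `[0,1] ≈ [1,0]`.  `LR n`: `ap`,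
`rr` are the two identities (`mw 0 (sg 0 2)`, `mw 1 (v2 2 1) = [0,0,2,0]`, ..).  `ND`: NDF.  The last: `Op n β
(Bit.J 2)` is `[0,2,0] ≈ [0,2] ++ 0^(1+2n)`; rename `2 ↦ 1`: contradiction to `Iso3`. -/
def PhbStmt : Prop :=
  ∀ (n : ℕ) (β : FIC), HBP n β → Iso3 β → NC2 β ∧ CapP β ∧ LR n (FC.ofFIC β) ∧
    ND (FC.ofFIC β) ∧ ¬ Op n β (Bit.J 2)

/-- **PIS** (uses MWL.ABS, MWL.TRN, MWS.CHK, PHB) [NIS].  Insertion of an absorbing letter.
PROOF.  `a := wo i (ty U c)`; `a' t := a t` if `a t ≤ 1`, `a' t := n + 1` if `a t ≥ 2`.  `a'` absorbs at `i`: add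
`f t = (n - 1) * a t + n + 1` (if `a t ≥ 2`, else `0`) to `a` (TRN (2)): `a t + f t = n * a t + n + 1`, so `Nq n k
(a + f) a'`, ABS (second part) and TRN (1).  For `t ≤ k`, `t ≠ i` with `a t ≥ 2` write `U t = P t ++ c :: Q t` (first
occurrence) and `U' t = P t ++ c^(n+1) ++ Q t` (the number of `c` grows by `n`, the states do not change);
`a t = 1`: `U t = P t ++ c :: Q t`, `U' t = U t`; `a t = 0`: `P t = U t`, `Q t = []`.  `hst`: `asm k U ≈ asm k U'`.  CHK for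
`a'`, `ad n a' i` (chunk `c^(a' t)` in block `t`; in block `i` the chunk `c^(2n)` is inserted at the right end,
then again with the chunk at the left end).  At the end undo `U ↦ U'` by `hst`. -/
def PisStmt : Prop :=
  ∀ (n : ℕ) (β : FIC), HBP n β → Iso3 β → ∀ (k : ℕ) (U : ℕ → List ℕ) (c i : ℕ), OkB k U →
    Two01 k U → (c = 0 ∨ c = 1) → i ≤ k → 2 ≤ deg k (wo i (ty U c)) →
      Ab n (FC.ofFIC β) k (wo i (ty U c)) i →
        RR β (asm k U) (asm k (Function.update U i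
          (List.replicate (2 * n) c ++ (U i ++ List.replicate (2 * n) c))))

/-- **PCO** (uses MWL.ABS, MWL.TRN, PHB, PIS) [NCO].  Collapse of the states.
PROOF.  As NCO: `wo j (ty U c)` and `wo j (ty V c)` are related (`Nq n k`, ABS), so PIS applies to `U` and to
`V`; the two new words have `c^(2n)` at both ends of block `j`, the same shapes and residues, and no
state in block `j`; `hst`. -/
def PcoStmt : Prop :=
  ∀ (n : ℕ) (β : FIC), HBP n β → Iso3 β → ∀ (k : ℕ) (U V : ℕ → List ℕ) (c d j : ℕ), OkB k U →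
    OkB k V → Two01 k U → Two01 k V → Shn n k (ty U 0) (ty V 0) → Shn n k (ty U 1) (ty V 1) →
      (c = 0 ∧ d = 1 ∨ c = 1 ∧ d = 0) → j ≤ k → d ∈ U j → 2 ≤ deg k (wo j (ty U c)) →
        2 ≤ deg k (wo j (ty V c)) →
        Ab n (FC.ofFIC β) k (wo j (ty U c)) j → RR β (asm k U) (asm k V)

/-- **PEX** (uses MVO.ONE, MWS.CHK, MWL.HVP, MWL.DMX, MWL.RMV, MWL.CLO, PHB) [NEX].
PROOF.  Let `h t` hold if `A t` is `pos`, `two` or `any`.  `m t := 2 + (n - 1) * (U t).count 0` if `h t`, else `0`;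
`m' t := 2 + (n - 1) * (V t).count 0` if `h t`, else `0`; `l t`, `l' t` the same for the letter `1` and `B`.
Insert `0^(m t)`, `1^(l t)` at the ends of the blocks of `U` and of `V` as in NEX (`rr_ins'`): `asm k U' ≈
asm k V'`.  Let `V''` be `V'` with `0^(m' t)`, `1^(l' t)` in place of `0^(m t)`, `1^(l t)`.  `V' ≈ V''`: CHK for the
chunks `0^(m t)`, with `L1 β k m m'`: let `d, μ` be the divisors (DMX); `L1 β k (ty U 0) (ty V 0)` (ONE), so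
by RMV (3) the two types are congruent mod `μ` in every block and their degrees mod `d`; `m t - m' t =
(n-1)((U t).count 0 - (V t).count 0)` if `h t`; in the other blocks `A t` is `z` or `one` and the two counts
agree; so `m`, `m'` are congruent mod `μ` in every block, and mod `d` in degree; CLO with `S` = the set of
the blocks `t` with `h t` (entries `≥ 2`, absorbing by HVP).  The same for the letter `1`.  Now all
numbers of occurrences in `U'`, `V''` in blocks with `h t` are `2 + n * x`, the other ones are `0` or `1`: `hst` for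
`U'` and `cs i A B st`, and for `V''` and `cn i A B st`, as in NEX. -/
def PexStmt : Prop :=
  ∀ (n : ℕ) (β : FIC), HBP n β → Iso3 β → ∀ (k i : ℕ) (A B : ℕ → Cd) (st : Bool)
    (U V : ℕ → List ℕ), i ≤ k → Onl k i A B → A i ≠ Cd.z → B i ≠ Cd.z →
      2 ≤ deg k (fun j => (A j).h) → 2 ≤ deg k (fun j => (B j).h) → Two01 k U → Two01 k V →
        Sat k A (ty U 0) → Sat k B (ty U 1) → Sat k A (ty V 0) → Sat k B (ty V 1) → 0 ∈ U i →
          1 ∈ U i → RR β (asm k U) (asm k V) → Fst st (U i) → ¬ Fst st (V i) →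
            RR β (asm k (cs i A B st)) (asm k (cn i A B st))

/-- **PPH** (uses MWN.NIN, MWN.NKA, MWN.NVG, MWN.NPE, MWN.NIB, PHB, PEX) [NPH].  PROOF.  The same. -/
def PphStmt : Prop :=
  ∀ (n : ℕ) (β : FIC), HBP n β → Iso3 β → ModF β → ∀ (k i : ℕ) (A1 B1 A2 B2 : ℕ → Cd) (st : Bool)
    (a a' b b' : ℕ → ℕ), penB k i A1 B1 A2 B2 a a' b b' = true → A1 i ≠ Cd.any →
      B1 i ≠ Cd.any → A2 i ≠ Cd.any → B2 i ≠ Cd.any → Clo β k A1 → Clo β k B1 → Clo β k A2 →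
        Clo β k B2 → RR β (asm k (cs i A1 B1 st)) (asm k (cn i A1 B1 st)) ∨
          RR β (asm k (cs i A2 B2 st)) (asm k (cn i A2 B2 st))

/-- **PCX** (uses MWN.NCL, PHB) [NCX].  PROOF.  The same, NCL for `n`. -/
def PcxStmt : Prop :=
  ∀ (n : ℕ) (β : FIC), HBP n β → Iso3 β → ∀ (X : List ℕ) (k : ℕ) (A : ℕ → Cd),
    (∀ x ∈ X, x = 8 ∨ (x = 0 ∧ ¬ Op n β Bit.E) ∨ (x = 1 ∧ ¬ Op n β Bit.F) ∨
      (x = 2 ∧ ¬ Op n β Bit.G) ∨ (x = 3 ∧ ¬ Op n β (Bit.D 0)) ∨ (x = 5 ∧ ¬ Op n β (Bit.D 1)) ∨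
      (x = 10 ∧ ¬ Op n β (Bit.J 3))) → cloB X k A = true → Clo β k A

/-- **PDD** (uses nothing) [NDD].  The identity `D 0` and the period in words.
PROOF.  First: `Op n β (D 0)` is `[0,2,0,0] ≈ 0^(1+2n) 2 0 0`; substitute `0 ↦ [c]`, `2 ↦ w`, add the context.
Second: `ap`, `RR.sub`, `RR.append`, induction. -/
def PddStmt : Prop :=
  ∀ (n : ℕ) (β : FIC), HBP n β →
    (Op n β (Bit.D 0) → ∀ (p w q : List ℕ) (c : ℕ),
      RR β (p ++ c :: (w ++ c :: c :: q))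
        (p ++ (List.replicate (2 * n + 1) c ++ (w ++ c :: c :: q)))) ∧
    ∀ (p q : List ℕ) (c i j : ℕ), 2 ≤ i → 2 ≤ j → i ≡ j [MOD n] →
      RR β (p ++ (List.replicate i c ++ q)) (p ++ (List.replicate j c ++ q))

/-! ### the clauses -/

/-- **P1A** (uses PPH, PCX, PCO) [N1A].  PROOF.  The same. -/
def P1aStmt : Prop :=
  ∀ (n : ℕ) (β : FIC), HBP n β → Iso3 β → ModF β → ¬ Op n β (Bit.D 0) → ∀ st, C1 β st

/-- **P1B** (uses PPH, PCX, PCO, PDD) [N1B].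
CHANGES.  The second alternative, `st = false`: `[0,0,1,1,2,0,0] ≈ [0,1,0,1,2,0,0]`; put `0^(2n-1)` in front.
`[0,1,1,2,0,0] ≈ 0^(2n+1) 1 1 2 0 0` (PDD) `≈ 0^(2n) 1 0 1 2 0 0 ≈ 1 0^(2n+1) 1 2 0 0` (`hst`, no state in block
`0`) `≈ [1,0,1,2,0,0]` (PDD).  `st = true`: `[1,1,0,0,2,0,0] ≈ [0,1,0,1,2,0,0]`; substitute `2 ↦ 0^(2n-1) 2`.
`[1,1,0,2,0,0] ≈ 1 1 0^(2n+1) 2 0 0 ≈ 0 1 0 1 0^(2n-1) 2 0 0 ≈ 1 0^(2n+1) 1 2 0 0 ≈ [1,0,1,2,0,0]`. -/
def P1bStmt : Prop :=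
  ∀ (n : ℕ) (β : FIC), HBP n β → Iso3 β → ModF β → Op n β (Bit.D 0) → ∀ st, C1 β st

/-- **P2X** (uses PPH, PCX, PCO) [N2X].  PROOF.  The same. -/
def P2xStmt : Prop :=
  ∀ (n : ℕ) (β : FIC), HBP n β → Iso3 β → ModF β → ¬ Op n β (Bit.D 0) → C2 β

/-- **P3A** (uses PPH, PCX, PCO, MWL.ARR, PHB) [N3A].  PROOF.  The same (`LR n` for ARR by PHB). -/
def P3aStmt : Prop :=
  ∀ (n : ℕ) (β : FIC), HBP n β → Iso3 β → ModF β → ¬ Op n β (Bit.D 0) → ∀ st, C3a β st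

/-- **P3B** (uses PPH, PCX, MWL.ARR, PHB) [N3B].  PROOF.  The same. -/
def P3bStmt : Prop :=
  ∀ (n : ℕ) (β : FIC), HBP n β → Iso3 β → ModF β → ¬ Op n β (Bit.D 0) → ∀ st, C3b β st

/-- **P3C** (uses PPH, PCX, PCO, MWL.ARR, PHB) [N3C].  PROOF.  The same. -/
def P3cStmt : Prop :=
  ∀ (n : ℕ) (β : FIC), HBP n β → Iso3 β → ModF β → ¬ Op n β (Bit.D 0) → ∀ st, C3c β st

/-- **P3D** (uses PPH, PCX, PCO, MWL.ARR, PHB) [N3D].  PROOF.  The same. -/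
def P3dStmt : Prop :=
  ∀ (n : ℕ) (β : FIC), HBP n β → Iso3 β → ModF β → ¬ Op n β (Bit.D 0) → ∀ st, C3d β st

/-- **P4A** (uses PPH, PCX, PCO, PDD, MWL.ARR, PHB) [N4A].
CHANGES.  Where `0000 ≈ 00` is used: append `0^(2n-2)` at the right end of both words first (then the last
exponent is `2n+2`; PDD (2)).  The chain at the end: `[0,1,2,1,3,0,0] ≈ 0^(2n+1) 1 2 1 3 0 0` (PDD) `≈
0^(2n) 1 0 2 1 3 0 0` (`C3a false`, `0^(2n-1)` in front) `≈ 0 1 0^(2n) 2 1 3 0 0` (`hst`, no state in block `0`) `≈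
1 0^(2n+1) 2 1 3 0 0` (`C3a true`, `2 ↦ 0^(2n-1) 2`) `≈ [1,0,2,1,3,0,0]` (PDD). -/
def P4aStmt : Prop :=
  ∀ (n : ℕ) (β : FIC), HBP n β → Iso3 β → ModF β → ¬ Op n β (Bit.J 3) → C4a β

/-- **P4B** (uses PPH, PCX, PCO, PDD, MWL.ARR, PHB) [N4B].
CHANGES.  `0000 ≈ 00` as in P4A.  The chain at the end: `[1,2,0,1,3,0,0] ≈ 1 2 0^(2n+1) 1 3 0 0` (PDD) `≈
1 2 0^(2n) 1 0 3 0 0` (`C3b false`, `2 ↦ 2 0^(2n-1)`) `≈ 1 2 0 1 0^(2n) 3 0 0` (`hst`: block `1` has no state; the only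
common block is `1`) `≈ 1 2 1 0^(2n+1) 3 0 0` (`C3b true`, `3 ↦ 0^(2n-1) 3`) `≈ [1,2,1,0,3,0,0]` (PDD). -/
def P4bStmt : Prop :=
  ∀ (n : ℕ) (β : FIC), HBP n β → Iso3 β → ModF β → ¬ Op n β (Bit.J 3) → C4b β

/-- **P4C** (uses PPH, PCX, PCO, PDD, MWL.ARR, PHB) [N4C].
CHANGES.  `0000 ≈ 00`: substitute `3 ↦ 0^(2n-2) 3` (after the renaming) first.  The chain at the end as in P4A with
`C3c`: `[0,1,2,0,0,3,1] ≈ 0^(2n+1) 1 2 .. ≈ 0^(2n) 1 0 2 .. ≈ 0 1 0^(2n) 2 .. ≈ 1 0^(2n+1) 2 .. ≈ [1,0,2,0,0,3,1]`. -/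
def P4cStmt : Prop :=
  ∀ (n : ℕ) (β : FIC), HBP n β → Iso3 β → ModF β → ¬ Op n β (Bit.J 3) → C4c β

/-- **P4D** (uses PPH, PCX, PCO) [N4D].
CHANGES.  `[0,0,0,1,2,1] ≈ [0,0,1,0,2,1]`: put `0^(n-1)` in front, then `hst` (`n + 2 ≡ 2`); the second
alternative: `0^6 1 2 1 ≈ 0^5 1 0 2 1`: put `0^(4n-4)` in front. -/
def P4dStmt : Prop :=
  ∀ (n : ℕ) (β : FIC), HBP n β → Iso3 β → ModF β → ¬ Op n β (Bit.J 3) → C4d β

/-- **P4E** (uses PPH, PCX, PCO) [N4E].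
CHANGES.  `E` is `[0,0,2] ≈ 0 0 2 0^(2n)`: `[1,2,0,0,1] ≈ 1 2 0 0 1 0^(2n) ≈ [1,2,0,1,0]` (`hst`).
`[1,2,0,0,0,1] ≈ [1,2,0,0,1,0]`: substitute `2 ↦ 2 0^(n-1)`, then `hst`; the second alternative:
`2 ↦ 2 0^(4n-4)`. -/
def P4eStmt : Prop :=
  ∀ (n : ℕ) (β : FIC), HBP n β → Iso3 β → ModF β → ¬ Op n β (Bit.J 3) → C4e β

/-- **P5X** (uses PPH, PCX, PCO, MWL.ARR, PHB) [N5X].  PROOF.  The same. -/
def P5xStmt : Prop :=
  ∀ (n : ℕ) (β : FIC), HBP n β → Iso3 β → ModF β → ¬ Op n β (Bit.D 1) → C5 β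

/-- **PH8** (uses P1A, P2X, P3A, P3B, P3C, P3D) [NH8].
CHANGES.  `s4`: `[1,2,1] ++ 0^4 ≈ [1,2,0,1] ++ 0^3`: append `0^(2n-2)`, then `hst`.  `s6`:
`1 0^4 2 1 ≈ 0 1 0^3 2 1`: substitute `2 ↦ 0^(2n-2) 2`, then `hst`. -/
def Ph8Stmt : Prop :=
  ∀ (n : ℕ) (β : FIC), HBP n β → Iso3 β → ModF β → ¬ Op n β (Bit.D 0) → S8 β

/-- **PH3** (uses P4A, P4B, P4C, P4D, P4E) [NH3].
CHANGES.  `d`: `[0,1,0,0,2,1] ≈ [1,0,0,0,2,1]`: substitute `2 ↦ 0^(n-1) 2`, then `hst`.  `e`: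
`[0,2,1,0,1,1] ≈ [0,2,0,1,1,1]`: append `1^(n-1)`, then `hst`. -/
def Ph3Stmt : Prop :=
  ∀ (n : ℕ) (β : FIC), HBP n β → Iso3 β → ModF β → ¬ Op n β (Bit.J 3) → Sh3 β

/-- **PHF** (uses PDD, P1A, P1B, P5X, PH8, PH3) [NHF].  The necessity theorem for base (h), period `n`.
CHANGES.  `J 3`: `[0,2,0,3,0] ≈ [0,2,0,3] ++ 0^(1+2n)`, and `0^(1+2n)` may be replaced by `0^(n+1)` (PDD (2)).
`D 0`: PDD (1) makes the occurrence in block `1` and then the one in block `0` heavy (`0^(2n+1)`,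
replaced by `0^(n+1)`).  `Sp2.h`: `[1,1,0,0,0] ≈ [1,0,1,0,0]` (delete `2` in `C1 true`): append `0^(n-1)`, `hst` with
`k = 0`.  `Sp5`: `D 1` is `[0,2,0,3,0,0] ≈ 0 2 0^(1+2n) 3 0 0`; append `0^(n-1)`. -/
def PhfStmt : Prop :=
  ∀ (n : ℕ) (β : FIC), HBP n β → Iso3 β → ModF β → Sp2 n β ∨ Sh3 β ∨ Sp4 n β ∨ Sp5 n β

end Pool.Agent.MWNP
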